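import Pool.Agent.X87.CM.Inf3

set_option autoImplicit false

/-!
# Sums of completely multiplicative functions with values close to `-T (log p) / p` at the primes

The conclusion of the question of Kahane and Saias, with an additional power of the logarithm, for
every completely multiplicative function `f` for which `∑ √p |f(p) + T (log p) / p|` is finite for
some absolutely convergent series `T (u) = ∑ κ_j exp (i γ_j u)` with complex coefficients and
distinct real frequencies.
-/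

namespace Pool.Agent.Results.MP_768c9c_nt.AlmostPeriodicValues

open Classical in
/-- half of the sum of the products `κ_i κ_j` over all `i`, `j` with `γ_i + γ_j = 0` and of the
`κ_j` with `γ_j = 0` -/
noncomputable def order (κ : ℕ → ℂ) (γ : ℕ → ℝ) : ℂ :=
  (∑' i, ∑' j, (if γ i + γ j = 0 then κ i * κ j else 0) + ∑' j, (if γ j = 0 then κ j else 0)) / 2

theorem result (f : ℕ → ℂ) (h1 : f 1 = 1)
    (hf : ∀ m n : ℕ, 0 < m → 0 < n → f (m * n) = f m * f n)
    (κ : ℕ → ℂ) (γ : ℕ → ℝ) (hγ : Function.Injective γ) (hκ : Summable fun j => ‖κ j‖)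
    (hs : Summable fun p : ℕ => if p.Prime then
      Real.sqrt p * ‖f p + (∑' j, κ j * (p : ℂ) ^ (γ j * Complex.I)) / p‖ else 0)
    (A : ℝ) (hA : A ≤ max ((order κ γ).re - 1) 0 ∨ ∃ j, ∀ n : ℕ, κ j ≠ n) :
    ∃ c : ℝ, 0 < c ∧ ∀ M : ℕ, ∃ N : ℕ, M ≤ N ∧ 1 < N ∧
      c * ((N : ℝ) ^ (-(1 / 2) : ℝ) * Real.log N ^ A) ≤ ‖∑ n ∈ Finset.Icc 1 N, f n‖ := by
  rcases hA with hA | hA
  · obtain ⟨c, hc, h⟩ := Pool.Agent.X87.CM.mainI f h1 hf κ γ hγ hκ hs
    refine ⟨c, hc, fun M => ?_⟩
    obtain ⟨N, hN1, hN2, hN3⟩ := h (max M 3)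
    have hN4 : 3 ≤ N := (le_max_right _ _).trans hN1
    refine ⟨N, (le_max_left _ _).trans hN1, hN2, le_trans ?_ hN3⟩
    have hlog : 1 ≤ Real.log N := by
      rw [Real.le_log_iff_exp_le (by positivity)]
      have h3 : (3 : ℝ) ≤ N := by exact_mod_cast hN4
      have := Real.exp_one_lt_d9
      linarith
    have := Real.rpow_le_rpow_of_exponent_le hlog hA
    exact mul_le_mul_of_nonneg_left (mul_le_mul_of_nonneg_left this (by positivity)) hc.le
  · refine ⟨1, one_pos, fun M => ?_⟩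
    obtain ⟨N, hN1, hN2, hN3⟩ := Pool.Agent.X87.CM.mainJ f h1 hf hκ hγ hs hA A M
    exact ⟨N, hN1, hN2, by rw [one_mul]; exact hN3⟩

end Pool.Agent.Results.MP_768c9c_nt.AlmostPeriodicValues
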