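import Pool.Agent.X26.CM.Base
import Pool.Agent.X115.CMO.Main

/-!
# MP_768c9c_nt: CMO functions with prescribed values at primes
-/

set_option autoImplicit false

namespace Pool.Agent.Results.MP_768c9c_nt.PrescribedValues

open Filter Topology Finset Asymptotics

/-- `f` (only its values at `n ≥ 1` matter) is a CMO function: completely multiplicative, with
`∑ f(n)` convergent to `0` -/
structure IsCMO (f : ℕ → ℂ) : Prop where
  one : f 1 = 1
  mul : ∀ m n : ℕ, 1 ≤ m → 1 ≤ n → f (m * n) = f m * f n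
  sum_zero : Tendsto (fun N : ℕ => ∑ n ∈ Icc 1 N, f n) atTop (𝓝 0)

/-- the partial sum `S_f(x) = ∑_{n ≤ x} f(n)` -/
noncomputable def partialSum (f : ℕ → ℂ) (x : ℝ) : ℂ := ∑ n ∈ Icc 1 ⌊x⌋₊, f n

/-- `S_f(x) = o(x^(-1/2))` -/
def Small (f : ℕ → ℂ) : Prop := (partialSum f) =o[atTop] (fun x : ℝ => x ^ (-(1 / 2 : ℝ)))

/-- the affirmative answer to Q1: `S_f(x)` is not `o(x^(-1/2))`, for every CMO function `f` -/
def Q1 : Prop := ∀ f : ℕ → ℂ, IsCMO f → ¬ Small f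

/-- the affirmative answer to Q1 for the CMO functions with `f(p) = a(p)` for all `p ∈ P` -/
def Q1On (P : Set ℕ) (a : ℕ → ℂ) : Prop :=
  ∀ f : ℕ → ℂ, IsCMO f → (∀ p ∈ P, f p = a p) → ¬ Small f

lemma bridge (f : ℕ → ℂ) : Small f ↔
    Tendsto (fun N : ℕ => Real.sqrt N * ‖∑ n ∈ Icc 1 N, f n‖) atTop (𝓝 0) := by
  unfold Small
  constructor
  · intro h
    have h2 := h.comp_tendsto (tendsto_natCast_atTop_atTop (R := ℝ))
    have h3 := (h2.norm_left).tendsto_div_nhds_zero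
    refine h3.congr' ?_
    filter_upwards [eventually_gt_atTop 0] with N hN
    have hN' : (0 : ℝ) < N := by exact_mod_cast hN
    simp only [Function.comp, partialSum, Nat.floor_natCast]
    rw [Real.rpow_neg hN'.le, ← Real.sqrt_eq_rpow, div_inv_eq_mul, mul_comm]
  · intro h
    have h4 : Tendsto (fun x : ℝ => Real.sqrt 2 * (Real.sqrt (⌊x⌋₊ : ℕ) *
        ‖∑ n ∈ Icc 1 ⌊x⌋₊, f n‖)) atTop (𝓝 (Real.sqrt 2 * 0)) :=
      (h.comp (tendsto_nat_floor_atTop (α := ℝ))).const_mul _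
    rw [mul_zero] at h4
    rw [← isLittleO_norm_left]
    rw [isLittleO_iff_tendsto']
    · refine squeeze_zero' ?_ ?_ h4
      · filter_upwards [eventually_gt_atTop (0 : ℝ)] with x hx
        positivity
      · filter_upwards [eventually_ge_atTop (1 : ℝ)] with x hx
        have hfl : 1 ≤ ⌊x⌋₊ := by rwa [Nat.one_le_floor_iff]
        have h5 : (1 : ℝ) ≤ (⌊x⌋₊ : ℕ) := by exact_mod_cast hfl
        have h6 : x ≤ 2 * (⌊x⌋₊ : ℕ) := by
          have := Nat.lt_floor_add_one x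
          linarith
        rw [Real.rpow_neg (by linarith), ← Real.sqrt_eq_rpow, div_inv_eq_mul, mul_comm]
        calc Real.sqrt x * ‖partialSum f x‖
            ≤ (Real.sqrt 2 * Real.sqrt (⌊x⌋₊ : ℕ)) * ‖partialSum f x‖ := by
              gcongr
              rw [← Real.sqrt_mul (by norm_num)]
              exact Real.sqrt_le_sqrt h6
          _ = Real.sqrt 2 * (Real.sqrt (⌊x⌋₊ : ℕ) * ‖∑ n ∈ Icc 1 ⌊x⌋₊, f n‖) := by
              rw [mul_assoc]
              rfl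
    · filter_upwards [eventually_gt_atTop (0 : ℝ)] with x hx h0
      exact absurd h0 (by positivity)

lemma sum_zero_of (f : ℕ → ℂ)
    (h : Tendsto (fun N : ℕ => Real.sqrt N * ‖∑ n ∈ Icc 1 N, f n‖) atTop (𝓝 0)) :
    Tendsto (fun N : ℕ => ∑ n ∈ Icc 1 N, f n) atTop (𝓝 0) := by
  rw [tendsto_zero_iff_norm_tendsto_zero]
  refine squeeze_zero' (Eventually.of_forall fun N => norm_nonneg _) ?_ h
  filter_upwards [eventually_ge_atTop 1] with N hN
  have h1 : (1 : ℝ) ≤ Real.sqrt N := Real.one_le_sqrt.mpr (by exact_mod_cast hN)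
  nlinarith [norm_nonneg (∑ n ∈ Icc 1 N, f n)]

/-- the transfer theorem -/
lemma transfer (f g : ℕ → ℂ) (hf : IsCMO f) (hs : Small f) (g1 : g 1 = 1)
    (hg : ∀ m n : ℕ, 1 ≤ m → 1 ≤ n → g (m * n) = g m * g n)
    (hlt : ∀ p : ℕ, p.Prime → ‖g p‖ * Real.sqrt p < 1)
    (hS : Summable fun p : ℕ => if p.Prime then ‖g p - f p‖ * Real.sqrt p else 0) :
    IsCMO g ∧ Small g := by
  have h := Pool.Agent.X26.CM.keep f g hf.one hf.mul g1 hg hlt hS ((bridge f).mp hs)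
  exact ⟨⟨g1, hg, sum_zero_of g h⟩, (bridge g).mpr h⟩

lemma lt_one_of_small (f : ℕ → ℂ) (h1 : f 1 = 1)
    (hf : ∀ m n : ℕ, 1 ≤ m → 1 ≤ n → f (m * n) = f m * f n) (hs : Small f)
    (p : ℕ) (hp : p.Prime) : ‖f p‖ * Real.sqrt p < 1 :=
  Pool.Agent.X26.CM.small f h1 hf ((bridge f).mp hs) p hp

open Pool.Agent.X26.CM in
/-- prescribing values on a thin set of primes -/
lemma prescribe (f : ℕ → ℂ) (hf : IsCMO f) (hs : Small f) (P : Set ℕ) (a : ℕ → ℂ)
    (hP : ∀ p ∈ P, p.Prime) (ha : ∀ p ∈ P, ‖a p‖ * Real.sqrt p < 1)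
    (hS : Summable fun p : ℕ => P.indicator (fun p => ‖a p - f p‖ * Real.sqrt p) p) :
    ∃ g : ℕ → ℂ, IsCMO g ∧ Small g ∧ (∀ p ∈ P, g p = a p) ∧
      (∀ p : ℕ, p.Prime → p ∉ P → g p = f p) := by
  have h := transfer f (repl P a f) hf hs (repl_one P a f) (fun m n _ _ => repl_mul P a f m n)
    ?_ ?_
  · exact ⟨repl P a f, h.1, h.2, fun p hp => repl_in P a f p (hP p hp) hp,
      fun p hp h => repl_out P a f p hp h⟩
  · intro p hp
    by_cases h : p ∈ P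
    · rw [repl_in P a f p hp h]
      exact ha p h
    · rw [repl_out P a f p hp h]
      exact lt_one_of_small f hf.one hf.mul hs p hp
  · refine hS.congr fun p => ?_
    by_cases h : p ∈ P
    · rw [Set.indicator_of_mem h, if_pos (hP p h), repl_in P a f p (hP p h) h]
    · rw [Set.indicator_of_notMem h]
      split_ifs with hp
      · rw [repl_out P a f p hp h, sub_self, norm_zero, zero_mul]
      · rfl

lemma summable_finite (P : Set ℕ) (hP : P.Finite) (u : ℕ → ℝ) :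
    Summable fun p : ℕ => P.indicator u p := by
  refine summable_of_hasFiniteSupport (hP.subset ?_)
  intro p hp
  by_contra h
  exact hp (Set.indicator_of_notMem h u)

/-- the vanishing set inside an infinite set of primes -/
lemma thin (f : ℕ → ℂ) (hs : Small f) (T : Set ℕ) (hT : T.Infinite) :
    ∃ T' : Set ℕ, T' ⊆ T ∧ T'.Infinite ∧
      Summable fun p : ℕ => T'.indicator (fun p => ‖f p‖ * Real.sqrt p) p := by
  have h1 := Pool.Agent.X26.CM.term f ((bridge f).mp hs)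
  have h2 : ∀ n : ℕ, ∃ᶠ k in atTop, k ∈ T ∧ ‖f k‖ * Real.sqrt k ≤ (1 / 2 : ℝ) ^ n := by
    intro n
    have h3 : ∃ᶠ k in atTop, k ∈ T := Nat.frequently_atTop_iff_infinite.mpr hT
    refine h3.and_eventually ?_
    filter_upwards [h1.eventually_le_const (show (0 : ℝ) < (1 / 2 : ℝ) ^ n by positivity)] with k hk
    rwa [mul_comm]
  obtain ⟨φ, hφ, hφ2⟩ := extraction_forall_of_frequently h2
  refine ⟨Set.range φ, ?_, Set.infinite_range_of_injective hφ.injective, ?_⟩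
  · rintro _ ⟨n, rfl⟩
    exact (hφ2 n).1
  · refine (Function.Injective.summable_iff hφ.injective ?_).mp ?_
    · intro x hx
      exact Set.indicator_of_notMem hx _
    · refine Summable.of_nonneg_of_le (fun n => ?_) (fun n => ?_)
        (summable_geometric_of_lt_one (by norm_num) (by norm_num : (1 / 2 : ℝ) < 1))
      · simp only [Function.comp]
        exact Set.indicator_nonneg (fun p _ => by positivity) _
      · simp only [Function.comp]
        rw [Set.indicator_of_mem (Set.mem_range_self n)]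
        exact (hφ2 n).2

/-- a counterexample with prescribed values at `P` and small values at the other primes -/
lemma reduce (f : ℕ → ℂ) (hf : IsCMO f) (hs : Small f) (P : Set ℕ) (a : ℕ → ℂ) (hfin : P.Finite)
    (hP : ∀ p ∈ P, p.Prime) (ha : ∀ p ∈ P, ‖a p‖ * Real.sqrt p < 1) (ε : ℝ) (hε : 0 < ε) :
    ∃ g : ℕ → ℂ, IsCMO g ∧ Small g ∧ (∀ p ∈ P, g p = a p) ∧
      ∀ p : ℕ, p.Prime → p ∉ P → ‖g p‖ * Real.sqrt p ≤ ε := by
  have h1 := Pool.Agent.X26.CM.term f ((bridge f).mp hs)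
  obtain ⟨y, hy⟩ := (h1.eventually_le_const hε).exists_forall_of_atTop
  have hQ : {p : ℕ | p.Prime ∧ p < y}.Finite := (Set.finite_lt_nat y).subset fun p hp => hp.2
  obtain ⟨f2, hf2, hs2, hz, hz2⟩ := prescribe f hf hs {p : ℕ | p.Prime ∧ p < y} (fun _ => 0)
    (fun p hp => hp.1) (fun p _ => by simp) (summable_finite _ hQ _)
  obtain ⟨g, hg1, hg2, hg3, hg4⟩ := prescribe f2 hf2 hs2 P a hP ha (summable_finite P hfin _)
  refine ⟨g, hg1, hg2, hg3, fun p hp hpP => ?_⟩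
  rw [hg4 p hp hpP]
  by_cases h : p < y
  · rw [hz p ⟨hp, h⟩, norm_zero, zero_mul]
    exact hε.le
  · rw [hz2 p hp (fun h' => h h'.2), mul_comm]
    exact hy p (not_lt.mp h)

lemma partialSum_of_nat (g : ℕ → ℂ) (c C : ℝ) (hc : 0 < c) (hC : 0 ≤ C)
    (h : ∀ N : ℕ, 1 ≤ N → ‖∑ n ∈ Icc 1 N, g n‖ ≤ C * (N : ℝ) ^ (-(1 / 2 + c))) (x : ℝ)
    (hx : 1 ≤ x) : ‖partialSum g x‖ ≤ C * 2 ^ (1 / 2 + c) * x ^ (-(1 / 2 : ℝ) - c) := by
  have hfl : 1 ≤ ⌊x⌋₊ := by rwa [Nat.one_le_floor_iff]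
  have h3 := h ⌊x⌋₊ hfl
  have h4 : (1 : ℝ) ≤ ⌊x⌋₊ := by exact_mod_cast hfl
  have h5 : x / 2 ≤ ⌊x⌋₊ := by
    have := Nat.lt_floor_add_one x
    linarith
  have h6 : (⌊x⌋₊ : ℝ) ^ (-(1 / 2 + c)) ≤ (x / 2) ^ (-(1 / 2 + c)) :=
    Real.rpow_le_rpow_of_nonpos (by linarith) h5 (by linarith)
  have h7 : (x / 2) ^ (-(1 / 2 + c)) = x ^ (-(1 / 2 : ℝ) - c) * 2 ^ (1 / 2 + c) := by
    rw [Real.div_rpow (by linarith) (by norm_num), div_eq_mul_inv, ← Real.rpow_neg (by norm_num),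
      neg_neg, neg_add']
  unfold partialSum
  calc ‖∑ n ∈ Icc 1 ⌊x⌋₊, g n‖ ≤ C * (⌊x⌋₊ : ℝ) ^ (-(1 / 2 + c)) := h3
    _ ≤ C * (x ^ (-(1 / 2 : ℝ) - c) * 2 ^ (1 / 2 + c)) := by
        rw [← h7]
        exact mul_le_mul_of_nonneg_left h6 hC
    _ = C * 2 ^ (1 / 2 + c) * x ^ (-(1 / 2 : ℝ) - c) := by ring

lemma sum_zero_of_rpow (g : ℕ → ℂ) (c C : ℝ) (hc : 0 < c)
    (h : ∀ N : ℕ, 1 ≤ N → ‖∑ n ∈ Icc 1 N, g n‖ ≤ C * (N : ℝ) ^ (-(1 / 2 + c))) :
    Tendsto (fun N : ℕ => ∑ n ∈ Icc 1 N, g n) atTop (𝓝 0) := by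
  rw [tendsto_zero_iff_norm_tendsto_zero]
  have h3 : Tendsto (fun x : ℝ => x ^ (-(1 / 2 + c))) atTop (𝓝 0) :=
    tendsto_rpow_neg_atTop (by positivity)
  have h4 := (h3.comp (tendsto_natCast_atTop_atTop (R := ℝ))).const_mul C
  rw [mul_zero] at h4
  refine squeeze_zero' (Eventually.of_forall fun N => norm_nonneg _) ?_ h4
  filter_upwards [eventually_ge_atTop 1] with N hN
  exact h N hN

/-- a good exponent -/
lemma choose_exponent (P : Set ℕ) (a : ℕ → ℂ) (hP : ∀ p ∈ P, p.Prime)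
    (ha : ∀ p ∈ P, ‖a p‖ * Real.sqrt p < 1) (η δ : ℝ) (hη : 0 < η) (hδ : 0 < δ)
    (ha2 : Summable fun p : ℕ => P.indicator (fun p => ‖a p‖ * (p : ℝ) ^ (1 / 2 + η)) p) :
    ∃ c : ℝ, 0 < c ∧ c ≤ δ ∧ c ≤ η ∧ c ≤ 1 / 100 ∧
      ∀ p ∈ P, ‖a p‖ * (p : ℝ) ^ (1 / 2 + c) < 1 := by
  have h1 : ∀ᶠ p in cofinite, P.indicator (fun p => ‖a p‖ * (p : ℝ) ^ (1 / 2 + η)) p < 1 :=
    ha2.tendsto_cofinite_zero.eventually_lt_const one_pos
  have hfin := Filter.eventually_cofinite.mp h1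
  have h2 : ∀ᶠ c in 𝓝[>] (0 : ℝ), ∀ p ∈ {p : ℕ | ¬ P.indicator
      (fun p => ‖a p‖ * (p : ℝ) ^ (1 / 2 + η)) p < 1}, ‖a p‖ * (p : ℝ) ^ (1 / 2 + c) < 1 := by
    rw [Filter.eventually_all_finite hfin]
    intro p hp
    have hpP : p ∈ P := by
      by_contra hcon
      refine hp ?_
      rw [Set.indicator_of_notMem hcon]
      exact one_pos
    have hp0 : (0 : ℝ) < p := by exact_mod_cast (hP p hpP).pos
    have hc : Continuous fun c : ℝ => ‖a p‖ * (p : ℝ) ^ (1 / 2 + c) := by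
      refine continuous_const.mul ?_
      exact Continuous.rpow continuous_const (by fun_prop) (fun _ => Or.inl hp0.ne')
    have h3 : Tendsto (fun c : ℝ => ‖a p‖ * (p : ℝ) ^ (1 / 2 + c)) (𝓝[>] 0)
        (𝓝 (‖a p‖ * (p : ℝ) ^ (1 / 2 + 0 : ℝ))) :=
      (hc.tendsto 0).mono_left nhdsWithin_le_nhds
    refine h3.eventually_lt_const ?_
    rw [add_zero, ← Real.sqrt_eq_rpow]
    exact ha p hpP
  have h3 : Set.Ioo (0 : ℝ) (min δ (min η (1 / 100))) ∈ 𝓝[>] (0 : ℝ) :=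
    Ioo_mem_nhdsGT (by positivity)
  obtain ⟨c, hc1, hc2⟩ := (h2.and h3).exists
  have h4 := hc2.2.le
  rw [le_min_iff, le_min_iff] at h4
  refine ⟨c, hc2.1, h4.1, h4.2.1, h4.2.2, fun p hp => ?_⟩
  by_cases h5 : P.indicator (fun p => ‖a p‖ * (p : ℝ) ^ (1 / 2 + η)) p < 1
  · rw [Set.indicator_of_mem hp] at h5
    refine lt_of_le_of_lt ?_ h5
    have hp1 : (1 : ℝ) ≤ p := by exact_mod_cast (hP p hp).one_lt.le
    have := Real.rpow_le_rpow_of_exponent_le hp1 (show 1 / 2 + c ≤ 1 / 2 + η by linarith [h4.2.1])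
    exact mul_le_mul_of_nonneg_left this (norm_nonneg _)
  · exact hc1 p h5

open Pool.Agent.X26.CM in
/-- prescribing values in the construction under the Riemann hypothesis -/
lemma rh_part (h : Pool.Agent.X115.CMO.ConclR) (P : Set ℕ) (a : ℕ → ℂ)
    (hP : ∀ p ∈ P, p.Prime) (ha : ∀ p ∈ P, ‖a p‖ * Real.sqrt p < 1)
    (hP2 : Summable fun p : ℕ => P.indicator (fun p => (p : ℝ) ^ (-(12 / 25 : ℝ))) p)
    (η : ℝ) (hη : 0 < η)
    (ha2 : Summable fun p : ℕ => P.indicator (fun p => ‖a p‖ * (p : ℝ) ^ (1 / 2 + η)) p) :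
    ∃ g : ℕ → ℂ, IsCMO g ∧ (∀ p ∈ P, g p = a p) ∧
      ∃ c C : ℝ, 0 < c ∧ ∀ x : ℝ, 1 ≤ x → ‖partialSum g x‖ ≤ C * x ^ (-(1 / 2 : ℝ) - c) := by
  obtain ⟨f, h1, hmul, β, δ, C, hδ, hC, hβ, _, hf, hS⟩ := h
  obtain ⟨c, hc0, hcδ, hcη, hc1, hcP⟩ := choose_exponent P a hP ha η δ hη hδ ha2
  set F : ℕ → ℂ := fun n => ((f n : ℝ) : ℂ) with hF
  have hFn : ∀ p : ℕ, p.Prime → ‖F p‖ * (p : ℝ) ^ (1 / 2 + c) ≤ (p : ℝ) ^ (-(12 / 25 : ℝ)) := by
    intro p hp
    have hp0 : (0 : ℝ) < p := by exact_mod_cast hp.pos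
    have hp1 : (1 : ℝ) ≤ p := by exact_mod_cast hp.one_lt.le
    have h2 : ‖F p‖ ≤ (p : ℝ) ^ (-1 + 1 / 100 : ℝ) := by
      simp only [hF]
      rw [Complex.norm_real, Real.norm_eq_abs]
      refine (hf p hp.one_lt.le).trans (Real.rpow_le_rpow_of_exponent_le hp1 ?_)
      linarith
    calc ‖F p‖ * (p : ℝ) ^ (1 / 2 + c)
        ≤ (p : ℝ) ^ (-1 + 1 / 100 : ℝ) * (p : ℝ) ^ (1 / 2 + c) := by gcongr
      _ = (p : ℝ) ^ (-1 + 1 / 100 + (1 / 2 + c)) := by rw [← Real.rpow_add hp0]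
      _ ≤ (p : ℝ) ^ (-(12 / 25 : ℝ)) := Real.rpow_le_rpow_of_exponent_le hp1 (by linarith)
  have hap : ∀ p ∈ P, ‖a p‖ * (p : ℝ) ^ (1 / 2 + c) ≤ ‖a p‖ * (p : ℝ) ^ (1 / 2 + η) := by
    intro p hp
    have hp1 : (1 : ℝ) ≤ p := by exact_mod_cast (hP p hp).one_lt.le
    exact mul_le_mul_of_nonneg_left (Real.rpow_le_rpow_of_exponent_le hp1 (by linarith))
      (norm_nonneg _)
  have hFC : ∀ N : ℕ, 1 ≤ N → ‖∑ n ∈ Icc 1 N, F n‖ ≤ C * (N : ℝ) ^ (-(1 / 2 + c)) := by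
    intro N hN
    have h2 : ∑ n ∈ Icc 1 N, F n = ((∑ n ∈ Icc 1 N, f n : ℝ) : ℂ) := by
      simp only [hF]
      push_cast
      rfl
    rw [h2, Complex.norm_real, Real.norm_eq_abs]
    refine (hS N hN).trans ?_
    refine mul_le_mul_of_nonneg_left ?_ hC.le
    exact Real.rpow_le_rpow_of_exponent_le (by exact_mod_cast hN) (by linarith)
  have k1 : ∀ p : ℕ, p.Prime → ‖repl P a F p‖ * (p : ℝ) ^ (1 / 2 + c) < 1 := by
    intro p hp
    by_cases h : p ∈ P
    · rw [repl_in P a F p hp h]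
      exact hcP p h
    · rw [repl_out P a F p hp h]
      exact (hFn p hp).trans_lt (Real.rpow_lt_one_of_one_lt_of_neg
        (by exact_mod_cast hp.one_lt) (by norm_num))
  have k2 : Summable fun p : ℕ => if p.Prime then
      ‖repl P a F p - F p‖ * (p : ℝ) ^ (1 / 2 + c) else 0 := by
    refine Summable.of_nonneg_of_le (fun p => by split_ifs <;> positivity) (fun p => ?_)
      (ha2.add hP2)
    by_cases h : p ∈ P
    · rw [if_pos (hP p h), Set.indicator_of_mem h, Set.indicator_of_mem h,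
        repl_in P a F p (hP p h) h]
      calc ‖a p - F p‖ * (p : ℝ) ^ (1 / 2 + c)
          ≤ (‖a p‖ + ‖F p‖) * (p : ℝ) ^ (1 / 2 + c) := by
            gcongr
            exact norm_sub_le _ _
        _ = ‖a p‖ * (p : ℝ) ^ (1 / 2 + c) + ‖F p‖ * (p : ℝ) ^ (1 / 2 + c) := by ring
        _ ≤ _ := add_le_add (hap p h) (hFn p (hP p h))
    · rw [Set.indicator_of_notMem h, Set.indicator_of_notMem h, add_zero]
      split_ifs with hp
      · rw [repl_out P a F p hp h, sub_self, norm_zero, zero_mul]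
      · exact le_rfl
  have k3 : Tendsto (fun p : ℕ => if p.Prime then
      ‖repl P a F p‖ * (p : ℝ) ^ (1 / 2 + c) else 0) atTop (𝓝 0) := by
    have h3 : Tendsto (fun p : ℕ => (p : ℝ) ^ (-(12 / 25 : ℝ))) atTop (𝓝 0) :=
      (tendsto_rpow_neg_atTop (by norm_num)).comp (tendsto_natCast_atTop_atTop (R := ℝ))
    have h4 := ha2.tendsto_atTop_zero.add h3
    rw [add_zero] at h4
    refine squeeze_zero (fun p => by split_ifs <;> positivity) (fun p => ?_) h4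
    by_cases h : p ∈ P
    · rw [if_pos (hP p h), Set.indicator_of_mem h, repl_in P a F p (hP p h) h]
      have h5 : (0 : ℝ) ≤ (p : ℝ) ^ (-(12 / 25 : ℝ)) := by positivity
      linarith [hap p h]
    · rw [Set.indicator_of_notMem h, zero_add]
      split_ifs with hp
      · rw [repl_out P a F p hp h]
        exact hFn p hp
      · positivity
  obtain ⟨C', hC'0, hC'⟩ := keep_rpow (1 / 2 + c) (by positivity) F (repl P a F)
    (by simp only [hF]; rw [h1, Complex.ofReal_one])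
    (fun m n hm hn => by simp only [hF]; rw [hmul m n hm hn, Complex.ofReal_mul])
    (repl_one P a F) (fun m n _ _ => repl_mul P a F m n) k1 k2 k3 C hFC
  exact ⟨repl P a F, ⟨repl_one P a F, fun m n _ _ => repl_mul P a F m n,
      sum_zero_of_rpow _ c C' hc0 hC'⟩, fun p hp => repl_in P a F p (hP p hp) hp, c,
      C' * 2 ^ (1 / 2 + c), hc0, fun x hx => partialSum_of_nat _ c C' hc0 hC'0 hC' x hx⟩

lemma littleO_of_bound (f : ℕ → ℂ) (c C : ℝ) (hc : 0 < c)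
    (hb : ∀ x : ℝ, 1 ≤ x → ‖partialSum f x‖ ≤ C * x ^ (-(1 / 2 : ℝ) - c)) : Small f := by
  have e1 : (partialSum f) =O[atTop] (fun x : ℝ => x ^ (-(1 / 2 : ℝ) - c)) := by
    refine IsBigO.of_bound C ?_
    filter_upwards [eventually_ge_atTop (1 : ℝ)] with x hx
    rw [Real.norm_of_nonneg (by positivity)]
    exact hb x hx
  refine e1.trans_isLittleO ?_
  rw [isLittleO_iff_tendsto']
  · have h5 : Tendsto (fun x : ℝ => x ^ (-c)) atTop (𝓝 0) := tendsto_rpow_neg_atTop hc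
    refine h5.congr' ?_
    filter_upwards [eventually_gt_atTop (0 : ℝ)] with x hx
    rw [← Real.rpow_sub hx]
    congr 1
    ring
  · filter_upwards [eventually_gt_atTop (0 : ℝ)] with x hx h0
    exact absurd h0 (by positivity)

/-- The question Q1 does not depend on the values at finitely many primes:

1. if `f` is a CMO function with `S_f(x) = o(x^(-1/2))` and `g` is completely multiplicative with
`∑_p |g(p) - f(p)| p^(1/2) < ∞`, then `g` is a CMO function with `S_g(x) = o(x^(-1/2))` if and only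
if `|g(p)| p^(1/2) < 1` for every prime `p`;

2. for every finite set `P` of primes and all values `a(p)`, `p ∈ P`: if `|a(p)| p^(1/2) < 1` for
all `p ∈ P`, then the affirmative answer to Q1 for the CMO functions with `f(p) = a(p)` on `P` is
equivalent to the affirmative answer to Q1 (and even, for every `ε > 0`, the one for those with
`f(p) = a(p)` on `P` and `|f(p)| p^(1/2) ≤ ε` at all other primes), and otherwise it is true;

3. if the answer to Q1 is negative, there are, for every such `P` and `a` and every infinite set `T`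
of primes, counterexamples with `f(p) = a(p)` on `P` which vanish at infinitely many primes of `T`;

4. for every set `P` of primes with `∑ p^(-12/25) < ∞` and all values `a(p)` with
`|a(p)| p^(1/2) < 1` and `∑ |a(p)| p^(1/2+η) < ∞` for some `η > 0`: if the Riemann hypothesis
holds, there are a CMO function with `f(p) = a(p)` on `P` and `c > 0`, `C` with
`|S_f(x)| ≤ C x^(-1/2-c)`; hence the affirmative answer to Q1 for the CMO functions with
`f(p) = a(p)` on `P` implies that the Riemann hypothesis is false. -/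
theorem result :
    (∀ f g : ℕ → ℂ, IsCMO f → Small f → g 1 = 1 →
      (∀ m n : ℕ, 1 ≤ m → 1 ≤ n → g (m * n) = g m * g n) →
      (Summable fun p : ℕ => if p.Prime then ‖g p - f p‖ * Real.sqrt p else 0) →
      ((IsCMO g ∧ Small g) ↔ ∀ p : ℕ, p.Prime → ‖g p‖ * Real.sqrt p < 1)) ∧
    (∀ (P : Set ℕ) (a : ℕ → ℂ), P.Finite → (∀ p ∈ P, p.Prime) →
      ((∀ p ∈ P, ‖a p‖ * Real.sqrt p < 1) → (Q1On P a ↔ Q1) ∧ ∀ ε : ℝ, 0 < ε →
        (∀ f : ℕ → ℂ, IsCMO f → (∀ p ∈ P, f p = a p) →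
          (∀ p : ℕ, p.Prime → p ∉ P → ‖f p‖ * Real.sqrt p ≤ ε) → ¬ Small f) → Q1) ∧
      ((¬ ∀ p ∈ P, ‖a p‖ * Real.sqrt p < 1) → Q1On P a)) ∧
    (¬ Q1 → ∀ (P T : Set ℕ) (a : ℕ → ℂ), P.Finite → (∀ p ∈ P, p.Prime) →
      (∀ p ∈ P, ‖a p‖ * Real.sqrt p < 1) → T.Infinite → (∀ p ∈ T, p.Prime) →
      ∃ f : ℕ → ℂ, IsCMO f ∧ Small f ∧ (∀ p ∈ P, f p = a p) ∧ {p ∈ T | f p = 0}.Infinite) ∧
    (∀ (P : Set ℕ) (a : ℕ → ℂ), (∀ p ∈ P, p.Prime) →
      (∀ p ∈ P, ‖a p‖ * Real.sqrt p < 1) →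
      (Summable fun p : ℕ => P.indicator (fun p => (p : ℝ) ^ (-(12 / 25 : ℝ))) p) →
      (∃ η : ℝ, 0 < η ∧
        Summable fun p : ℕ => P.indicator (fun p => ‖a p‖ * (p : ℝ) ^ (1 / 2 + η)) p) →
      (RiemannHypothesis → ∃ f : ℕ → ℂ, IsCMO f ∧ (∀ p ∈ P, f p = a p) ∧
        ∃ c C : ℝ, 0 < c ∧ ∀ x : ℝ, 1 ≤ x → ‖partialSum f x‖ ≤ C * x ^ (-(1 / 2 : ℝ) - c)) ∧
      (Q1On P a → ¬ RiemannHypothesis)) := by
  refine ⟨?_, ?_, ?_, ?_⟩
  · intro f g hf hs g1 hg hS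
    constructor
    · rintro ⟨h1, h2⟩ p hp
      exact lt_one_of_small g g1 hg h2 p hp
    · intro h
      exact transfer f g hf hs g1 hg h hS
  · intro P a hfin hP
    constructor
    · intro ha
      refine ⟨⟨?_, fun hQ f hf _ => hQ f hf⟩, ?_⟩
      · intro hQ f hf hs
        obtain ⟨g, hg1, hg2, hg3, _⟩ := reduce f hf hs P a hfin hP ha 1 one_pos
        exact hQ g hg1 hg3 hg2
      · intro ε hε hQ f hf hs
        obtain ⟨g, hg1, hg2, hg3, hg4⟩ := reduce f hf hs P a hfin hP ha ε hε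
        exact hQ g hg1 hg3 hg4 hg2
    · intro ha f hf hfa hs
      refine ha fun p hp => ?_
      rw [← hfa p hp]
      exact lt_one_of_small f hf.one hf.mul hs p (hP p hp)
  · intro hQ P T a hfin hP ha hT hTp
    unfold Q1 at hQ
    push Not at hQ
    obtain ⟨f, hf, hs⟩ := hQ
    obtain ⟨T', hT', hinf, hsum⟩ := thin f hs (T \ P) (hT.sdiff hfin)
    classical
    obtain ⟨f2, hf2, hs2, hz, _⟩ := prescribe f hf hs T' (fun _ => 0)
      (fun p hp => hTp p (hT' hp).1) (fun p _ => by simp) (hsum.congr fun p => by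
        by_cases h : p ∈ T'
        · rw [Set.indicator_of_mem h, Set.indicator_of_mem h, zero_sub, norm_neg]
        · rw [Set.indicator_of_notMem h, Set.indicator_of_notMem h])
    obtain ⟨g, hg1, hg2, hg3, hg4⟩ := prescribe f2 hf2 hs2 P a hP ha (summable_finite P hfin _)
    refine ⟨g, hg1, hg2, hg3, hinf.mono fun p hp => ⟨(hT' hp).1, ?_⟩⟩
    rw [hg4 p (hTp p (hT' hp).1) (hT' hp).2, hz p hp]
  · rintro P a hP ha hP2 ⟨η, hη, ha2⟩
    refine ⟨fun hRH => rh_part (Pool.Agent.X115.CMO.conclR_of_RH hRH) P a hP ha hP2 η hη ha2, ?_⟩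
    intro hQ hRH
    obtain ⟨f, hf, hfa, c, C, hc, hb⟩ :=
      rh_part (Pool.Agent.X115.CMO.conclR_of_RH hRH) P a hP ha hP2 η hη ha2
    exact hQ f hf hfa (littleO_of_bound f c C hc hb)

end Pool.Agent.Results.MP_768c9c_nt.PrescribedValues
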