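import Pool.Agent.X115.CMO.Main

/-!
# MP_768c9c_nt: under the Riemann hypothesis there is a CMO function beyond the square root
-/

set_option autoImplicit false

namespace Pool.Agent.Results.MP_768c9c_nt.RiemannHypothesis

open Filter Topology Finset Asymptotics

/-- `f` (only its values at `n ≥ 1` matter) is a CMO function: completely multiplicative, with
`∑ f(n)` convergent to `0` -/
structure IsCMO (f : ℕ → ℂ) : Prop where
  one : f 1 = 1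
  mul : ∀ m n : ℕ, 1 ≤ m → 1 ≤ n → f (m * n) = f m * f n
  sum_zero : Tendsto (fun N : ℕ => ∑ n ∈ Icc 1 N, f n) atTop (𝓝 0)

/-- the partial sum `S_f(x) = ∑_{n ≤ x} f(n)` -/
noncomputable def partialSum (f : ℕ → ℂ) (x : ℝ) : ℂ := ∑ n ∈ Icc 1 ⌊x⌋₊, f n

/-- the affirmative answer to Q1: `S_f(x)` is not `o(x^(-1/2))`, for every CMO function `f` -/
def Q1 : Prop := ∀ f : ℕ → ℂ, IsCMO f →
  ¬ (partialSum f) =o[atTop] (fun x : ℝ => x ^ (-(1 / 2 : ℝ)))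

lemma transfer (h : Pool.Agent.X115.CMO.ConclR) :
    ∃ f : ℕ → ℂ, IsCMO f ∧ (∀ n : ℕ, (f n).im = 0) ∧
      (∀ n : ℕ, 1 ≤ n → ‖f n‖ ≤ (n : ℝ) ^ (-1 + 1 / 100 : ℝ)) ∧
      ∃ c C : ℝ, 0 < c ∧ ∀ x : ℝ, 1 ≤ x → ‖partialSum f x‖ ≤ C * x ^ (-(1 / 2 : ℝ) - c) := by
  obtain ⟨f, h1, hmul, β, δ, C, hδ, hC, hβ, _, hf, hS⟩ := h
  have hsum : ∀ N : ℕ, ∑ n ∈ Icc 1 N, ((f n : ℝ) : ℂ) = ((∑ n ∈ Icc 1 N, f n : ℝ) : ℂ) := by
    intro N
    push_cast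
    rfl
  refine ⟨fun n => ((f n : ℝ) : ℂ), ⟨?_, ?_, ?_⟩, fun n => Complex.ofReal_im _, ?_, δ,
    C * 2 ^ (1 / 2 + δ), hδ, ?_⟩
  · show ((f 1 : ℝ) : ℂ) = 1
    rw [h1, Complex.ofReal_one]
  · intro m n hm hn
    show ((f (m * n) : ℝ) : ℂ) = ((f m : ℝ) : ℂ) * ((f n : ℝ) : ℂ)
    rw [hmul m n hm hn, Complex.ofReal_mul]
  · have h2 : Tendsto (fun N : ℕ => C * (N : ℝ) ^ (-(1 / 2 : ℝ) - δ)) atTop (𝓝 0) := by
      have h3 : Tendsto (fun x : ℝ => x ^ (-(1 / 2 + δ))) atTop (𝓝 0) :=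
        tendsto_rpow_neg_atTop (by positivity)
      have h4 := (h3.comp tendsto_natCast_atTop_atTop).const_mul C
      rw [mul_zero] at h4
      refine h4.congr fun N => ?_
      simp only [Function.comp]
      congr 2
      ring
    have h5 : Tendsto (fun N : ℕ => ∑ n ∈ Icc 1 N, f n) atTop (𝓝 0) := by
      rw [tendsto_zero_iff_abs_tendsto_zero]
      refine squeeze_zero' (Eventually.of_forall fun N => abs_nonneg _) ?_ h2
      filter_upwards [eventually_ge_atTop 1] with N hN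
      exact hS N hN
    have h6 : Tendsto (fun N : ℕ => ((∑ n ∈ Icc 1 N, f n : ℝ) : ℂ)) atTop (𝓝 ((0 : ℝ) : ℂ)) :=
      (Complex.continuous_ofReal.tendsto 0).comp h5
    rw [Complex.ofReal_zero] at h6
    exact h6.congr fun N => (hsum N).symm
  · intro n hn
    show ‖((f n : ℝ) : ℂ)‖ ≤ _
    rw [Complex.norm_real, Real.norm_eq_abs]
    refine (hf n hn).trans (Real.rpow_le_rpow_of_exponent_le (by exact_mod_cast hn) ?_)
    linarith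
  · intro x hx
    have hfl : 1 ≤ ⌊x⌋₊ := by rwa [Nat.one_le_floor_iff]
    have h2 : partialSum (fun n => ((f n : ℝ) : ℂ)) x = ((∑ n ∈ Icc 1 ⌊x⌋₊, f n : ℝ) : ℂ) := hsum _
    rw [h2, Complex.norm_real, Real.norm_eq_abs]
    have h3 := hS ⌊x⌋₊ hfl
    have h4 : (1 : ℝ) ≤ ⌊x⌋₊ := by exact_mod_cast hfl
    have h5 : x / 2 ≤ ⌊x⌋₊ := by
      have := Nat.lt_floor_add_one x
      linarith
    have h6 : (⌊x⌋₊ : ℝ) ^ (-(1 / 2 : ℝ) - δ) ≤ (x / 2) ^ (-(1 / 2 : ℝ) - δ) :=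
      Real.rpow_le_rpow_of_nonpos (by linarith) h5 (by linarith)
    have h7 : (x / 2) ^ (-(1 / 2 : ℝ) - δ) = x ^ (-(1 / 2 : ℝ) - δ) * 2 ^ (1 / 2 + δ) := by
      rw [Real.div_rpow (by linarith) (by norm_num), div_eq_mul_inv, ← Real.rpow_neg (by norm_num)]
      congr 2
      ring
    calc |∑ n ∈ Icc 1 ⌊x⌋₊, f n| ≤ C * (⌊x⌋₊ : ℝ) ^ (-(1 / 2 : ℝ) - δ) := h3
      _ ≤ C * (x ^ (-(1 / 2 : ℝ) - δ) * 2 ^ (1 / 2 + δ)) := by
          rw [← h7]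
          exact mul_le_mul_of_nonneg_left h6 hC.le
      _ = C * 2 ^ (1 / 2 + δ) * x ^ (-(1 / 2 : ℝ) - δ) := by ring

lemma littleO_of_bound (f : ℕ → ℂ) (c C : ℝ) (hc : 0 < c)
    (hb : ∀ x : ℝ, 1 ≤ x → ‖partialSum f x‖ ≤ C * x ^ (-(1 / 2 : ℝ) - c)) :
    (partialSum f) =o[atTop] (fun x : ℝ => x ^ (-(1 / 2 : ℝ))) := by
  have e1 : (partialSum f) =O[atTop] (fun x : ℝ => x ^ (-(1 / 2 : ℝ) - c)) := by
    refine IsBigO.of_bound C ?_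
    filter_upwards [eventually_ge_atTop (1 : ℝ)] with x hx
    rw [Real.norm_of_nonneg (by positivity)]
    exact hb x hx
  refine e1.trans_isLittleO ?_
  rw [isLittleO_iff_tendsto']
  · have h5 : Tendsto (fun x : ℝ => x ^ (-c)) atTop (𝓝 0) := tendsto_rpow_neg_atTop hc
    refine h5.congr' ?_
    filter_upwards [eventually_gt_atTop (0 : ℝ)] with x hx
    rw [← Real.rpow_sub hx]
    congr 1
    ring
  · filter_upwards [eventually_gt_atTop (0 : ℝ)] with x hx h0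
    exact absurd h0 (by positivity)

/-- If the Riemann hypothesis holds, there are a real-valued CMO function `f` with
`|f(n)| ≤ n^(-1+1/100)` and constants `c > 0`, `C` with `|S_f(x)| ≤ C x^(-1/2-c)` for every `x ≥ 1`;
hence an affirmative answer to Q1 implies that the Riemann hypothesis is false. -/
theorem result :
    (RiemannHypothesis → ∃ f : ℕ → ℂ, IsCMO f ∧ (∀ n : ℕ, (f n).im = 0) ∧
      (∀ n : ℕ, 1 ≤ n → ‖f n‖ ≤ (n : ℝ) ^ (-1 + 1 / 100 : ℝ)) ∧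
      ∃ c C : ℝ, 0 < c ∧ ∀ x : ℝ, 1 ≤ x → ‖partialSum f x‖ ≤ C * x ^ (-(1 / 2 : ℝ) - c)) ∧
    (Q1 → ¬ RiemannHypothesis) := by
  have key : RiemannHypothesis → ∃ f : ℕ → ℂ, IsCMO f ∧ (∀ n : ℕ, (f n).im = 0) ∧
      (∀ n : ℕ, 1 ≤ n → ‖f n‖ ≤ (n : ℝ) ^ (-1 + 1 / 100 : ℝ)) ∧
      ∃ c C : ℝ, 0 < c ∧ ∀ x : ℝ, 1 ≤ x → ‖partialSum f x‖ ≤ C * x ^ (-(1 / 2 : ℝ) - c) :=
    fun hRH => transfer (Pool.Agent.X115.CMO.conclR_of_RH hRH)
  refine ⟨key, fun hQ hRH => ?_⟩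
  obtain ⟨f, hf, _, _, c, C, hc, hb⟩ := key hRH
  exact hQ f hf (littleO_of_bound f c C hc hb)

end Pool.Agent.Results.MP_768c9c_nt.RiemannHypothesis
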